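import Mathlib

set_option autoImplicit false

namespace Pool.Agent.H286Z.Conn

open Filter Topology

theorem records (g : ℕ → ℝ) (hg : ∀ M : ℝ, ∃ n, M < g n) (N : ℕ) :
    ∃ n, N ≤ n ∧ ∀ j ≤ n, g j ≤ g n := by
  obtain ⟨n0, hn0⟩ := hg (∑ j ∈ Finset.range N, |g j|)
  obtain ⟨n, hn, hmax⟩ := Finset.exists_max_image (Finset.range (n0 + 1)) g ⟨0, by simp⟩
  refine ⟨n, ?_, fun j hj => hmax j ?_⟩
  · by_contra hlt
    have h1 : |g n| ≤ ∑ j ∈ Finset.range N, |g j| :=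
      Finset.single_le_sum (f := fun j => |g j|) (fun j _ => abs_nonneg _)
        (Finset.mem_range.2 (not_le.1 hlt))
    have h2 := hmax n0 (by simp)
    have h3 := le_abs_self (g n)
    linarith
  · simp only [Finset.mem_range] at hn ⊢
    omega

theorem core (f d : ℕ → ℕ)
    (hrec : ∀ n, d n ≤ ∑ k ∈ Finset.Icc 1 (n / 2), n ^ k * 2 ^ ((k + 1).choose 2) * f (n - k))
    (hlow : ∀ m, 2 ^ (m * m) ≤ (2 * m).factorial * f (2 * m)) (ε : ℝ) (hε : 0 < ε) :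
    ∃ᶠ n in atTop, (d n : ℝ) ≤ ε * f n := by
  obtain ⟨a, ha1, ha⟩ : ∃ a : ℝ, 1 < a ∧ a ^ 20 = 2 := by
    refine ⟨(2 : ℝ) ^ ((20 : ℕ) : ℝ)⁻¹, Real.one_lt_rpow (by norm_num) (by norm_num), ?_⟩
    exact Real.rpow_inv_natCast_pow (by norm_num) (by norm_num)
  have ha0 : 0 < a := by linarith
  let g : ℕ → ℝ := fun n => (f n : ℝ) / a ^ (4 * n ^ 2)
  have t1 := tendsto_pow_const_div_const_pow_of_one_lt 1 ha1
  have t2 := tendsto_pow_const_div_const_pow_of_one_lt 2 ha1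
  have hg : ∀ M : ℝ, ∃ n, M < g n := by
    intro M
    have e1 : ∀ᶠ n : ℕ in atTop, (n : ℝ) ^ 1 / a ^ n < 1 / 2 :=
      t1.eventually (gt_mem_nhds (by norm_num))
    obtain ⟨N, hN⟩ := eventually_atTop.1 e1
    obtain ⟨m0, hm0⟩ := exists_nat_gt M
    let m := max N m0 + 1
    refine ⟨2 * m, ?_⟩
    have hm1 : N ≤ 2 * m := by omega
    have hm2 : (m0 : ℝ) ≤ (2 * m : ℕ) := by exact_mod_cast (by omega : m0 ≤ 2 * m)
    have h1 := hN _ hm1
    rw [pow_one, div_lt_iff₀ (by positivity)] at h1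
    have h2 : ((2 * m).factorial : ℝ) ≤ ((2 * m : ℕ) : ℝ) ^ (2 * m) := by
      exact_mod_cast Nat.factorial_le_pow _
    have h3 : (2 : ℝ) ^ (m * m) ≤ ((2 * m).factorial : ℝ) * f (2 * m) := by
      exact_mod_cast hlow m
    have h4 : (2 * ((2 * m : ℕ) : ℝ)) ^ (2 * m) ≤ (a ^ (2 * m)) ^ (2 * m) :=
      pow_le_pow_left₀ (by positivity) (by linarith) _
    have h5 : ((2 * m : ℕ) : ℝ) < 2 ^ (2 * m) := by
      exact_mod_cast Nat.lt_two_pow_self
    have h6 : (2 : ℝ) ^ (m * m) = a ^ (4 * (2 * m) ^ 2) * (a ^ (2 * m)) ^ (2 * m) := by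
      rw [← ha, ← pow_mul, ← pow_mul, ← pow_add]; congr 1; ring
    have hP : (0 : ℝ) < ((2 * m : ℕ) : ℝ) ^ (2 * m) := by
      have : (0 : ℝ) < ((2 * m : ℕ) : ℝ) := by exact_mod_cast (by omega : 0 < 2 * m)
      positivity
    have h7 : a ^ (4 * (2 * m) ^ 2) * 2 ^ (2 * m) ≤ f (2 * m) := by
      have : a ^ (4 * (2 * m) ^ 2) * 2 ^ (2 * m) * ((2 * m : ℕ) : ℝ) ^ (2 * m)
          ≤ f (2 * m) * ((2 * m : ℕ) : ℝ) ^ (2 * m) := by
        calc a ^ (4 * (2 * m) ^ 2) * 2 ^ (2 * m) * ((2 * m : ℕ) : ℝ) ^ (2 * m)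
            = a ^ (4 * (2 * m) ^ 2) * (2 * ((2 * m : ℕ) : ℝ)) ^ (2 * m) := by
              rw [mul_pow]; ring
          _ ≤ a ^ (4 * (2 * m) ^ 2) * (a ^ (2 * m)) ^ (2 * m) := by gcongr
          _ = (2 : ℝ) ^ (m * m) := h6.symm
          _ ≤ ((2 * m).factorial : ℝ) * f (2 * m) := h3
          _ ≤ ((2 * m : ℕ) : ℝ) ^ (2 * m) * f (2 * m) := by gcongr
          _ = _ := by ring
      exact le_of_mul_le_mul_right this hP
    show M < (f (2 * m) : ℝ) / a ^ (4 * (2 * m) ^ 2)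
    rw [lt_div_iff₀ (by positivity)]
    have h8 : M * a ^ (4 * (2 * m) ^ 2) < (2 : ℝ) ^ (2 * m) * a ^ (4 * (2 * m) ^ 2) :=
      mul_lt_mul_of_pos_right (by linarith) (by positivity)
    linarith
  have e1 : ∀ᶠ n : ℕ in atTop, (n : ℝ) ^ 1 / a ^ n < 1 / a ^ 10 :=
    t1.eventually (gt_mem_nhds (by positivity))
  have e2 : ∀ᶠ n : ℕ in atTop, (n : ℝ) ^ 2 / a ^ n < ε / a ^ 10 :=
    t2.eventually (gt_mem_nhds (by positivity))
  obtain ⟨N, hN⟩ := eventually_atTop.1 (e1.and e2)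
  rw [frequently_atTop]
  intro N'
  obtain ⟨n, hn, hrecd⟩ := records g hg (max N N')
  refine ⟨n, le_of_max_le_right hn, ?_⟩
  obtain ⟨h1, h2⟩ := hN n (le_of_max_le_left hn)
  set r : ℝ := n * a ^ 10 / a ^ n with hr
  have hr0 : 0 ≤ r := by positivity
  have hr1 : r ≤ 1 := by
    rw [pow_one, div_lt_div_iff₀ (by positivity) (by positivity)] at h1
    rw [hr, div_le_one (by positivity)]; linarith
  have hr2 : n * r ≤ ε := by
    rw [div_lt_div_iff₀ (by positivity) (by positivity)] at h2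
    rw [hr, ← mul_div_assoc, div_le_iff₀ (by positivity)]; nlinarith
  have hterm : ∀ k ∈ Finset.Icc 1 (n / 2),
      (n : ℝ) ^ k * 2 ^ ((k + 1).choose 2) * f (n - k) ≤ r * f n := by
    intro k hk
    rw [Finset.mem_Icc] at hk
    obtain ⟨l, hl⟩ : ∃ l, n = k + l := ⟨n - k, by omega⟩
    have hkl : k ≤ l := by omega
    have hnk : n - k = l := by omega
    have h3 := hrecd l (by omega)
    simp only [g] at h3
    rw [div_le_div_iff₀ (by positivity) (by positivity)] at h3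
    have hch : 20 * (k + 1).choose 2 = 10 * ((k + 1) * k) := by
      have := Nat.choose_two_right (k + 1)
      have h4 : 2 ∣ (k + 1) * k := by
        rw [mul_comm]; exact (Nat.even_mul_succ_self k).two_dvd
      simp only [Nat.add_sub_cancel] at this
      omega
    have h5 : (2 : ℝ) ^ ((k + 1).choose 2) = a ^ (10 * ((k + 1) * k)) := by
      rw [← ha, ← pow_mul, hch]
    have h6 : a ^ (10 * ((k + 1) * k) + 4 * l ^ 2 + n * k) ≤ a ^ (10 * k + 4 * n ^ 2) := by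
      apply pow_le_pow_right₀ ha1.le
      rw [hl]; nlinarith
    have h7 : r ^ k ≤ r := by
      calc r ^ k ≤ r ^ 1 := pow_le_pow_of_le_one hr0 hr1 hk.1
        _ = r := pow_one r
    rw [hnk, h5]
    have h8 : (n : ℝ) ^ k * a ^ (10 * ((k + 1) * k)) * f l ≤ r ^ k * f n := by
      have hpos : 0 < a ^ (4 * n ^ 2) * a ^ (n * k) := by positivity
      apply le_of_mul_le_mul_right _ hpos
      calc (n : ℝ) ^ k * a ^ (10 * ((k + 1) * k)) * f l * (a ^ (4 * n ^ 2) * a ^ (n * k))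
          = (n : ℝ) ^ k * a ^ (10 * ((k + 1) * k)) * a ^ (n * k) * (f l * a ^ (4 * n ^ 2)) := by
            ring
        _ ≤ (n : ℝ) ^ k * a ^ (10 * ((k + 1) * k)) * a ^ (n * k) * (f n * a ^ (4 * l ^ 2)) := by
            gcongr
        _ = (n : ℝ) ^ k * f n * a ^ (10 * ((k + 1) * k) + 4 * l ^ 2 + n * k) := by
            rw [pow_add, pow_add]; ring
        _ ≤ (n : ℝ) ^ k * f n * a ^ (10 * k + 4 * n ^ 2) := by gcongr
        _ = r ^ k * f n * (a ^ (4 * n ^ 2) * a ^ (n * k)) := by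
            rw [hr, div_pow, mul_pow, ← pow_mul, ← pow_mul, pow_add]
            field_simp
    exact h8.trans (by gcongr)
  calc (d n : ℝ) ≤ ((∑ k ∈ Finset.Icc 1 (n / 2),
        n ^ k * 2 ^ ((k + 1).choose 2) * f (n - k) : ℕ) : ℝ) := by exact_mod_cast hrec n
    _ = ∑ k ∈ Finset.Icc 1 (n / 2), (n : ℝ) ^ k * 2 ^ ((k + 1).choose 2) * f (n - k) := by
        push_cast; rfl
    _ ≤ ∑ k ∈ Finset.Icc 1 (n / 2), r * f n := Finset.sum_le_sum hterm
    _ = ((n / 2 : ℕ) : ℝ) * (r * f n) := by simp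
    _ ≤ n * (r * f n) := by
        gcongr
        exact Nat.div_le_self _ _
    _ = (n * r) * f n := by ring
    _ ≤ ε * f n := by gcongr

/-- from a small disconnected part, infinitely often, to the failure of convergence below `1` -/
theorem not_tendsto (f c d : ℕ → ℕ) (hf : ∀ n, 0 < f n) (hfc : ∀ n, 1 ≤ n → f n ≤ c n + d n)
    (h : ∀ ε : ℝ, 0 < ε → ∃ᶠ n in atTop, (d n : ℝ) ≤ ε * f n) (q : ℝ) (hq : q < 1) :
    ¬ Tendsto (fun n => (c n : ℝ) / f n) atTop (𝓝 q) := by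
  intro ht
  have e1 : ∀ᶠ n : ℕ in atTop, (c n : ℝ) / f n < (1 + q) / 2 :=
    ht.eventually (gt_mem_nhds (by linarith))
  obtain ⟨n, h1, h2, h3⟩ :=
    ((h ((1 - q) / 2) (by linarith)).and_eventually (e1.and (eventually_ge_atTop 1))).exists
  have hp : (0 : ℝ) < f n := by exact_mod_cast hf n
  rw [div_lt_iff₀ hp] at h2
  have h4 : (f n : ℝ) ≤ c n + d n := by exact_mod_cast hfc n h3
  nlinarith

end Pool.Agent.H286Z.Conn
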