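import Pool.Agent.H286Z.Conn.Defs

set_option autoImplicit false

namespace Pool.Agent.H286Z.Conn

open SimpleGraph

variable {W : Type} (H : SimpleGraph W)

theorem card_graphs (k : ℕ) :
    (Set.univ : Set (SimpleGraph (Fin k))).ncard ≤ 2 ^ ((k + 1).choose 2) := by
  rw [Set.ncard_univ]
  have h := Nat.card_le_card_of_injective
    (fun G : SimpleGraph (Fin k) => G.edgeSet) edgeSet_injective
  refine h.trans (le_of_eq ?_)
  have : Nat.card (Set (Sym2 (Fin k))) = 2 ^ Nat.card (Sym2 (Fin k)) := by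
    classical
    rw [Nat.card_eq_fintype_card, Fintype.card_set, Nat.card_eq_fintype_card]
  rw [this, Sym2.natCard]
  simp

theorem split {n : ℕ} (G : SimpleGraph (Fin n)) (hG : ¬ G.Preconnected) :
    ∃ k ∈ Finset.Icc 1 (n / 2), ∃ e : Fin k ⊕ Fin (n - k) ≃ Fin n,
      ∀ a b, ¬ G.Adj (e (.inl a)) (e (.inr b)) := by
  classical
  have key : ∀ S : Finset (Fin n), S.Nonempty → 2 * S.card ≤ n →
      (∀ a ∈ S, ∀ b ∉ S, ¬ G.Adj a b) →
      ∃ k ∈ Finset.Icc 1 (n / 2), ∃ e : Fin k ⊕ Fin (n - k) ≃ Fin n,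
        ∀ a b, ¬ G.Adj (e (.inl a)) (e (.inr b)) := by
    intro S hS h2 hadj
    have hc : Fintype.card {x // x ∈ S} = S.card := Fintype.card_coe S
    have hc' : Fintype.card {x // ¬ x ∈ S} = n - S.card := by
      rw [Fintype.card_subtype_compl, Fintype.card_fin, hc]
    refine ⟨S.card, ?_, ((Fintype.equivFinOfCardEq hc).symm.sumCongr
      (Fintype.equivFinOfCardEq hc').symm).trans (Equiv.sumCompl (· ∈ S)), ?_⟩
    · have := hS.card_pos
      rw [Finset.mem_Icc]; omega
    · intro a b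
      exact hadj _ ((Fintype.equivFinOfCardEq hc).symm a).2 _
        ((Fintype.equivFinOfCardEq hc').symm b).2
  unfold Preconnected at hG
  push Not at hG
  obtain ⟨u, v, huv⟩ := hG
  let S : Finset (Fin n) := Finset.univ.filter (fun w => G.Reachable u w)
  have hadj : ∀ a ∈ S, ∀ b ∉ S, ¬ G.Adj a b := by
    intro a ha b hb hab
    simp only [S, Finset.mem_filter, Finset.mem_univ, true_and] at ha hb
    exact hb (ha.trans hab.reachable)
  by_cases h2 : 2 * S.card ≤ n
  · exact key S ⟨u, by simp [S]⟩ h2 hadj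
  · refine key Sᶜ ⟨v, by simp [S, huv]⟩ ?_ ?_
    · rw [Finset.card_compl, Fintype.card_fin]; omega
    · intro a ha b hb hab
      exact hadj b (by simpa using hb) a (by simpa using ha) hab.symm

/-- gluing two graphs along a bijection -/
def glue {k l n : ℕ} (e : Fin k ⊕ Fin l ≃ Fin n) (G1 : SimpleGraph (Fin k))
    (G2 : SimpleGraph (Fin l)) : SimpleGraph (Fin n) := (G1 ⊕g G2).comap e.symm

theorem glue_eq {k l n : ℕ} (e : Fin k ⊕ Fin l ≃ Fin n) (G : SimpleGraph (Fin n))
    (h : ∀ a b, ¬ G.Adj (e (.inl a)) (e (.inr b))) :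
    glue e (G.comap (fun a => e (.inl a))) (G.comap (fun b => e (.inr b))) = G := by
  ext x y
  obtain ⟨x, rfl⟩ := e.surjective x
  obtain ⟨y, rfl⟩ := e.surjective y
  simp only [glue, comap_adj, Equiv.symm_apply_apply]
  rcases x with x | x <;> rcases y with y | y
  · simp
  · simp [h]
  · have := h y x
    rw [G.adj_comm] at this
    simp [this]
  · simp

theorem comap_mem {n l : ℕ} {G : SimpleGraph (Fin n)} (hG : G ∈ members H n) (f : Fin l → Fin n)
    (hf : Function.Injective f) : G.comap f ∈ members H l :=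
  ⟨fun φ => hG.false ((Embedding.comap ⟨f, hf⟩ G).comp φ)⟩

open Classical in
/-- a chosen bijection extending a given map on the first summand -/
noncomputable def ext {k l n : ℕ} (e0 : Fin k ⊕ Fin l ≃ Fin n) (ι : Fin k → Fin n) :
    Fin k ⊕ Fin l ≃ Fin n :=
  if h : ∃ e : Fin k ⊕ Fin l ≃ Fin n, (fun a => e (.inl a)) = ι then h.choose else e0

theorem ext_inl {k l n : ℕ} (e0 e : Fin k ⊕ Fin l ≃ Fin n) (a : Fin k) :
    ext e0 (fun a => e (.inl a)) (.inl a) = e (.inl a) := by
  have h : ∃ e' : Fin k ⊕ Fin l ≃ Fin n, (fun a => e' (.inl a)) = fun a => e (.inl a) := ⟨e, rfl⟩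
  unfold ext
  rw [dif_pos h]
  exact congrFun h.choose_spec a

theorem base_equiv {n k : ℕ} (hk : k ∈ Finset.Icc 1 (n / 2)) :
    Nonempty (Fin k ⊕ Fin (n - k) ≃ Fin n) := by
  rw [Finset.mem_Icc] at hk
  exact ⟨finSumFinEquiv.trans (finCongr (by omega))⟩

theorem rec_lab (n : ℕ) : {G ∈ members H n | ¬ G.Preconnected}.ncard ≤
    ∑ k ∈ Finset.Icc 1 (n / 2), n ^ k * 2 ^ ((k + 1).choose 2) * (members H (n - k)).ncard := by
  classical
  let T : ℕ → Set (SimpleGraph (Fin n)) := fun k =>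
    if hk : k ∈ Finset.Icc 1 (n / 2) then
      (fun p : ((Fin k → Fin n) × SimpleGraph (Fin k)) × SimpleGraph (Fin (n - k)) =>
        glue (ext (base_equiv hk).some p.1.1) p.1.2 p.2) ''
          ((Set.univ ×ˢ Set.univ) ×ˢ members H (n - k))
    else ∅
  have hsub : {G ∈ members H n | ¬ G.Preconnected} ⊆ ⋃ k ∈ Finset.Icc 1 (n / 2), T k := by
    rintro G ⟨hG, hd⟩
    obtain ⟨k, hk, e, he⟩ := split G hd
    simp only [Set.mem_iUnion]
    refine ⟨k, hk, ?_⟩
    simp only [T, dif_pos hk]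
    set e' := ext (base_equiv hk).some (fun a => e (.inl a)) with he'
    have h1 : ∀ a, e' (.inl a) = e (.inl a) := ext_inl _ e
    have h2 : ∀ a b, ¬ G.Adj (e' (.inl a)) (e' (.inr b)) := by
      intro a b
      obtain ⟨y, hy⟩ := e.surjective (e' (.inr b))
      rcases y with y | y
      · rw [← h1] at hy
        exact absurd (e'.injective hy) (by simp)
      · rw [h1, ← hy]; exact he a y
    refine ⟨((fun a => e (.inl a), G.comap (fun a => e' (.inl a))),
      G.comap (fun b => e' (.inr b))), ⟨⟨trivial, trivial⟩, ?_⟩, glue_eq e' G h2⟩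
    exact comap_mem H hG _ (e'.injective.comp Sum.inr_injective)
  refine (Set.ncard_le_ncard hsub (Set.toFinite _)).trans
    ((Finset.set_ncard_biUnion_le _ _).trans (Finset.sum_le_sum fun k hk => ?_))
  simp only [T, dif_pos hk]
  refine (Set.ncard_image_le (Set.toFinite _)).trans ?_
  rw [Set.ncard_prod, Set.ncard_prod]
  gcongr
  · simp [Set.ncard_univ]
  · exact card_graphs k

theorem isoClass_eq {n : ℕ} {G G' : SimpleGraph (Fin n)} (h : Nonempty (G ≃g G')) :
    isoClass G = isoClass G' := by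
  obtain ⟨φ⟩ := h
  ext X
  exact ⟨fun ⟨ψ⟩ => ⟨φ.symm.trans ψ⟩, fun ⟨ψ⟩ => ⟨φ.trans ψ⟩⟩

theorem mem_isoClass_self {n : ℕ} (G : SimpleGraph (Fin n)) : G ∈ isoClass G := ⟨Iso.refl⟩

theorem glue_iso {k l n : ℕ} (e : Fin k ⊕ Fin l ≃ Fin n) (G1 : SimpleGraph (Fin k))
    (G2 : SimpleGraph (Fin l)) : Nonempty (glue e G1 G2 ≃g (G1 ⊕g G2)) :=
  ⟨Iso.comap e.symm _⟩

theorem rec_unlab (n : ℕ) : (isoClass '' {G ∈ members H n | ¬ G.Preconnected}).ncard ≤
    ∑ k ∈ Finset.Icc 1 (n / 2),
      n ^ k * 2 ^ ((k + 1).choose 2) * (isoClass '' members H (n - k)).ncard := by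
  classical
  let rep : (l : ℕ) → Set (SimpleGraph (Fin l)) → SimpleGraph (Fin l) := fun l C =>
    if h : C.Nonempty then h.some else ⊥
  have hrep : ∀ (l : ℕ) (G : SimpleGraph (Fin l)), Nonempty (G ≃g rep l (isoClass G)) := by
    intro l G
    have h : (isoClass G).Nonempty := ⟨G, mem_isoClass_self G⟩
    simp only [rep, dif_pos h]
    exact h.some_mem
  let T : ℕ → Set (Set (SimpleGraph (Fin n))) := fun k =>
    if hk : k ∈ Finset.Icc 1 (n / 2) then
      (fun p : SimpleGraph (Fin k) × Set (SimpleGraph (Fin (n - k))) =>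
        isoClass (glue (base_equiv hk).some p.1 (rep _ p.2))) ''
          (Set.univ ×ˢ (isoClass '' members H (n - k)))
    else ∅
  have hsub : isoClass '' {G ∈ members H n | ¬ G.Preconnected} ⊆
      ⋃ k ∈ Finset.Icc 1 (n / 2), T k := by
    rintro _ ⟨G, ⟨hG, hd⟩, rfl⟩
    obtain ⟨k, hk, e, he⟩ := split G hd
    simp only [Set.mem_iUnion]
    refine ⟨k, hk, ?_⟩
    simp only [T, dif_pos hk]
    refine ⟨(G.comap (fun a => e (.inl a)), isoClass (G.comap (fun b => e (.inr b)))),
      ⟨trivial, _, comap_mem H hG _ (e.injective.comp Sum.inr_injective), rfl⟩, ?_⟩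
    apply isoClass_eq
    obtain ⟨φ1⟩ := glue_iso (base_equiv hk).some (G.comap (fun a => e (.inl a)))
      (rep _ (isoClass (G.comap (fun b => e (.inr b)))))
    obtain ⟨φ2⟩ := hrep _ (G.comap (fun b => e (.inr b)))
    obtain ⟨φ3⟩ := glue_iso e (G.comap (fun a => e (.inl a))) (G.comap (fun b => e (.inr b)))
    rw [glue_eq e G he] at φ3
    exact ⟨φ1.trans ((Iso.sumCongr Iso.refl φ2.symm).trans φ3.symm)⟩
  refine (Set.ncard_le_ncard hsub (Set.toFinite _)).trans
    ((Finset.set_ncard_biUnion_le _ _).trans (Finset.sum_le_sum fun k hk => ?_))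
  simp only [T, dif_pos hk]
  refine (Set.ncard_image_le (Set.toFinite _)).trans ?_
  rw [Set.ncard_prod]
  gcongr
  have h1 : 1 ≤ n ^ k := by
    rw [Finset.mem_Icc] at hk
    exact Nat.one_le_pow _ _ (by omega)
  calc _ ≤ 2 ^ ((k + 1).choose 2) := card_graphs k
    _ ≤ _ := Nat.le_mul_of_pos_left _ h1

theorem lab_le_unlab (n : ℕ) (s : Set (SimpleGraph (Fin n))) :
    s.ncard ≤ n.factorial * (isoClass '' s).ncard := by
  classical
  have h := Finset.card_le_mul_card_image (f := isoClass) (Set.toFinite s).toFinset n.factorial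
    (by
      intro C hC
      obtain ⟨G, _, rfl⟩ := Finset.mem_image.1 hC
      have hsub : ((Set.toFinite s).toFinset.filter (fun x => isoClass x = isoClass G)) ⊆
          Finset.univ.image (fun σ : Equiv.Perm (Fin n) => G.comap σ) := by
        intro X hX
        have h1 := (Finset.mem_filter.1 hX).2
        have h2 : G ∈ isoClass X := h1 ▸ mem_isoClass_self G
        obtain ⟨φ⟩ := h2
        refine Finset.mem_image.2 ⟨φ.toEquiv, Finset.mem_univ _, ?_⟩
        ext a b
        exact φ.map_adj_iff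
      refine (Finset.card_le_card hsub).trans (Finset.card_image_le.trans ?_)
      simp [Fintype.card_perm])
  rw [Set.ncard_eq_toFinset_card s (Set.toFinite s)]
  refine h.trans (le_of_eq ?_)
  congr 1
  rw [← Set.ncard_coe_finset, Finset.coe_image, Set.Finite.coe_toFinset]

end Pool.Agent.H286Z.Conn
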