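import Mathlib

set_option autoImplicit false

/-! Probability of connectedness in the class of graphs without an induced copy of `H`. -/

namespace Pool.Agent.H286Z.Conn

open Filter Topology

/-- The graphs on the vertex set `{0, ..., n - 1}` that have no induced subgraph isomorphic to `H`
(a graph embedding `H ↪g G` is an isomorphism of `H` with an induced subgraph of `G`). -/
def members {W : Type} (H : SimpleGraph W) (n : ℕ) : Set (SimpleGraph (Fin n)) :=
  {G | IsEmpty (H ↪g G)}

/-- The isomorphism class of a graph on the vertex set `{0, ..., n - 1}`. -/
def isoClass {n : ℕ} (G : SimpleGraph (Fin n)) : Set (SimpleGraph (Fin n)) :=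
  {G' | Nonempty (G ≃g G')}

/-- Labelled model: the proportion of connected graphs among the members on `n` vertices. -/
noncomputable def pLab {W : Type} (H : SimpleGraph W) (n : ℕ) : ℝ :=
  ({G ∈ members H n | G.Connected}.ncard : ℝ) / ((members H n).ncard : ℝ)

/-- Unlabelled model: the proportion of the isomorphism classes of connected members among the
isomorphism classes of members on `n` vertices. -/
noncomputable def pUnlab {W : Type} (H : SimpleGraph W) (n : ℕ) : ℝ :=
  ((isoClass '' {G ∈ members H n | G.Connected}).ncard : ℝ) /
    ((isoClass '' members H n).ncard : ℝ)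

/-- The sequence `p` converges to a limit strictly between `0` and `1`. -/
def HasLimitProperty (p : ℕ → ℝ) : Prop :=
  ∃ q : ℝ, 0 < q ∧ q < 1 ∧ Tendsto p atTop (𝓝 q)

end Pool.Agent.H286Z.Conn
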