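import Pool.Agent.H286Z.Conn.Count
import Pool.Agent.H286Z.Conn.Core

set_option autoImplicit false

namespace Pool.Agent.H286Z.Conn

open SimpleGraph Filter Topology

variable {W : Type} (H : SimpleGraph W)

/-- the vertices split into two sides, each a clique or an independent set as prescribed -/
def Part (s t : Bool) : Prop :=
  ∃ c : W → Bool, ∀ a b, a ≠ b → c a = c b → (H.Adj a b ↔ cond (c a) s t = true)

/-- two sides with prescribed type and arbitrary edges between them -/
def bip (s t : Bool) {m : ℕ} (R : Fin m × Fin m → Bool) : SimpleGraph (Fin m ⊕ Fin m) where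
  Adj
    | .inl a, .inl b => a ≠ b ∧ s = true
    | .inr a, .inr b => a ≠ b ∧ t = true
    | .inl a, .inr b => R (a, b) = true
    | .inr b, .inl a => R (a, b) = true
  symm.symm
    | .inl _, .inl _ => fun h => ⟨h.1.symm, h.2⟩
    | .inr _, .inr _ => fun h => ⟨h.1.symm, h.2⟩
    | .inl _, .inr _ => id
    | .inr _, .inl _ => id
  loopless.irrefl
    | .inl _ => fun h => h.1 rfl
    | .inr _ => fun h => h.1 rfl

theorem low_lab {s t : Bool} (h : ¬ Part H s t) (m : ℕ) :
    2 ^ (m * m) ≤ (members H (2 * m)).ncard := by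
  let e : Fin m ⊕ Fin m ≃ Fin (2 * m) := finSumFinEquiv.trans (finCongr (by omega))
  have h1 : (Set.univ : Set (Fin m × Fin m → Bool)).ncard = 2 ^ (m * m) := by
    simp [Set.ncard_univ]
  rw [← h1]
  refine Set.ncard_le_ncard_of_injOn (fun R => (bip s t R).comap e.symm) ?_ ?_ (Set.toFinite _)
  · intro R _
    refine ⟨fun φ => h ⟨fun w => (e.symm (φ w)).isLeft, fun a b hab hc => ?_⟩⟩
    rw [← φ.map_adj_iff, comap_adj]
    have hne : e.symm (φ a) ≠ e.symm (φ b) := fun h => hab (φ.injective (e.symm.injective h))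
    revert hc hne
    simp only
    rcases e.symm (φ a) with x | x <;> rcases e.symm (φ b) with y | y <;> simp [bip]
    all_goals tauto
  · intro R _ R' _ hR
    funext p
    have : ((bip s t R).comap e.symm).Adj (e (.inl p.1)) (e (.inr p.2)) ↔
        ((bip s t R').comap e.symm).Adj (e (.inl p.1)) (e (.inr p.2)) := by
      simp only at hR
      rw [hR]
    simp only [comap_adj, Equiv.symm_apply_apply, bip] at this
    exact Bool.eq_iff_iff.2 this

theorem top_mem (hH : ¬ H.Preconnected) (n : ℕ) : (⊤ : SimpleGraph (Fin n)) ∈ members H n := by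
  refine ⟨fun φ => hH fun u v => ?_⟩
  by_cases h : u = v
  · rw [h]
  · exact (φ.map_adj_iff.1 (by simpa using h)).reachable

theorem small_aux (c0 c1 : W → Bool) (h0 : ∀ a b, c0 a = c0 b → ¬ H.Adj a b)
    (h1 : ∀ a b, H.Adj a b ↔ a ≠ b ∧ c1 a = c1 b) (v : W) (hv : ∀ a, a ≠ v → c1 a ≠ c1 v)
    {V : Type} (x y z : V) (hxy : x ≠ y) (hxz : x ≠ z) (hyz : y ≠ z) :
    ∃ f : W ↪ V, ∀ G : SimpleGraph V, G.Adj x y → ¬ G.Adj x z → ¬ G.Adj y z →
      ∀ a b, G.Adj (f a) (f b) ↔ H.Adj a b := by
  classical
  have hadj : ∀ a b, a ≠ v → b ≠ v → a ≠ b → H.Adj a b := by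
    intro a b ha hb hab
    rw [h1]
    refine ⟨hab, ?_⟩
    have t1 := hv a ha
    have t2 := hv b hb
    revert t1 t2
    cases c1 a <;> cases c1 b <;> cases c1 v <;> simp
  have hnv : ∀ a, ¬ H.Adj a v := by
    intro a ha
    rw [h1] at ha
    exact hv a ha.1 ha.2
  refine ⟨⟨fun a => if a = v then z else if c0 a = true then x else y, ?_⟩, ?_⟩
  · intro a b hab
    by_contra hne
    simp only at hab
    by_cases ha : a = v <;> by_cases hb : b = v
    · exact hne (ha.trans hb.symm)
    · rw [if_pos ha, if_neg hb] at hab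
      split_ifs at hab
      · exact hxz hab.symm
      · exact hyz hab.symm
    · rw [if_neg ha, if_pos hb] at hab
      split_ifs at hab
      · exact hxz hab
      · exact hyz hab
    · rw [if_neg ha, if_neg hb] at hab
      have := fun h => h0 a b h (hadj a b ha hb hne)
      revert hab this
      cases c0 a <;> cases c0 b <;> simp [hxy, hxy.symm]
  · intro G gxy gxz gyz a b
    have gzx : ¬ G.Adj z x := fun h => gxz h.symm
    have gzy : ¬ G.Adj z y := fun h => gyz h.symm
    simp only [Function.Embedding.coeFn_mk]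
    by_cases ha : a = v <;> by_cases hb : b = v
    · rw [ha, hb]; simp
    · rw [if_pos ha, if_neg hb, ha, H.adj_comm]
      split_ifs <;> simp [*]
    · rw [if_neg ha, if_pos hb, hb]
      split_ifs <;> simp [*]
    · rw [if_neg ha, if_neg hb]
      by_cases hab : a = b
      · rw [hab]; simp
      · have h2 := hadj a b ha hb hab
        have := fun h => h0 a b h h2
        revert this
        cases c0 a <;> cases c0 b <;> simp [h2, gxy, gxy.symm]

theorem small (hH : ¬ H.Preconnected) (p0 : Part H false false) (p1 : Part H true true)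
    (p2 : Part H true false) {V : Type} (x y z : V) (hxy : x ≠ y) (hxz : x ≠ z) (hyz : y ≠ z) :
    ∃ f : W ↪ V, ∀ G : SimpleGraph V, G.Adj x y → ¬ G.Adj x z → ¬ G.Adj y z →
      ∀ a b, G.Adj (f a) (f b) ↔ H.Adj a b := by
  obtain ⟨c0, h0⟩ := p0
  obtain ⟨c1, h1⟩ := p1
  obtain ⟨c2, h2⟩ := p2
  have h0' : ∀ a b, c0 a = c0 b → ¬ H.Adj a b := by
    intro a b hc hab
    have := (h0 a b hab.ne hc).1 hab
    simp at this
  have h1a : ∀ a b, c1 a = c1 b → H.Reachable a b := by
    intro a b hc
    by_cases hab : a = b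
    · rw [hab]
    · exact ((h1 a b hab hc).2 (by simp)).reachable
  unfold Preconnected at hH
  push Not at hH
  obtain ⟨u, v, huv⟩ := hH
  have huv1 : c1 u ≠ c1 v := fun h => huv (h1a u v h)
  have h1' : ∀ a b, H.Adj a b ↔ a ≠ b ∧ c1 a = c1 b := by
    intro a b
    refine ⟨fun hab => ⟨hab.ne, ?_⟩, fun hab => (h1 a b hab.1 hab.2).2 (by simp)⟩
    by_contra hc
    by_cases hau : c1 a = c1 u
    · have hbv : c1 b = c1 v := by
        revert hc hau huv1
        cases c1 a <;> cases c1 b <;> cases c1 u <;> cases c1 v <;> simp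
      exact huv ((h1a u a hau.symm).trans (hab.reachable.trans (h1a b v hbv)))
    · have hbu : c1 b = c1 u := by
        revert hc hau
        cases c1 a <;> cases c1 b <;> cases c1 u <;> simp
      have hav : c1 a = c1 v := by
        revert hau huv1
        cases c1 a <;> cases c1 u <;> cases c1 v <;> simp
      exact huv ((h1a u b hbu.symm).trans (hab.symm.reachable.trans (h1a a v hav)))
  have hone : ∀ a b, H.Adj a b → ∃ w, c1 w = c1 a ∧ c2 w = true := by
    intro a b hab
    by_cases ha : c2 a = true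
    · exact ⟨a, rfl, ha⟩
    · by_cases hb : c2 b = true
      · exact ⟨b, ((h1' a b).1 hab).2.symm, hb⟩
      · have hc : c2 a = c2 b := by
          revert ha hb
          cases c2 a <;> cases c2 b <;> simp
        have := (h2 a b hab.ne hc).1 hab
        simp [ha] at this
  by_cases hv : ∀ a, a ≠ v → c1 a ≠ c1 v
  · exact small_aux H c0 c1 h0' h1' v hv x y z hxy hxz hyz
  · by_cases hu : ∀ a, a ≠ u → c1 a ≠ c1 u
    · exact small_aux H c0 c1 h0' h1' u hu x y z hxy hxz hyz
    · exfalso
      push Not at hu hv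
      obtain ⟨u', hu1, hu2⟩ := hu
      obtain ⟨v', hv1, hv2⟩ := hv
      obtain ⟨a, ha1, ha2⟩ := hone u' u ((h1' _ _).2 ⟨hu1, hu2⟩)
      obtain ⟨b, hb1, hb2⟩ := hone v' v ((h1' _ _).2 ⟨hv1, hv2⟩)
      have hab : c1 a ≠ c1 b := by rw [ha1, hb1, hu2, hv2]; exact huv1
      have hne : a ≠ b := fun h => hab (by rw [h])
      have := (h2 a b hne (ha2.trans hb2.symm)).2 (by simp [ha2])
      exact hab ((h1' a b).1 this).2

theorem third {V : Type} {G : SimpleGraph V} (hG : ¬ G.Preconnected) (a : V) :
    ∃ z, ¬ G.Reachable a z := by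
  by_contra h
  push Not at h
  exact hG fun u v => (h u).symm.trans (h v)

theorem disc_eq_bot (hH : ¬ H.Preconnected) (p0 : Part H false false) (p1 : Part H true true)
    (p2 : Part H true false) {n : ℕ} {G : SimpleGraph (Fin n)} (hG : G ∈ members H n)
    (hd : ¬ G.Preconnected) : G = ⊥ := by
  by_contra hne
  obtain ⟨x, y, hxy⟩ : ∃ x y, G.Adj x y := by
    by_contra h
    push Not at h
    exact hne (by ext a b; simp [h])
  obtain ⟨z, hz⟩ := third hd x
  obtain ⟨f, hf⟩ := small H hH p0 p1 p2 x y z hxy.ne (by rintro rfl; exact hz (Reachable.refl _))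
    (by rintro rfl; exact hz hxy.reachable)
  exact hG.false ⟨f, hf G hxy (fun h => hz h.reachable)
    (fun h => hz (hxy.reachable.trans h.reachable)) _ _⟩

/-- the first `j` vertices are joined to everything -/
def csplit (n j : ℕ) : SimpleGraph (Fin n) where
  Adj a b := a ≠ b ∧ (a.1 < j ∨ b.1 < j)
  symm.symm _ _ h := ⟨h.1.symm, h.2.symm⟩
  loopless.irrefl _ h := h.1 rfl

theorem csplit_mem (hH : ¬ H.Preconnected) {a b : W} (hab : H.Adj a b) (n j : ℕ) :
    csplit n j ∈ members H n := by
  refine ⟨fun φ => ?_⟩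
  obtain ⟨z, hz⟩ := third hH a
  have h1 := φ.map_adj_iff.2 hab
  rcases h1.2 with h | h
  · have hne : a ≠ z := by rintro rfl; exact hz (Reachable.refl _)
    exact hz (φ.map_adj_iff.1 ⟨fun h => hne (φ.injective h), Or.inl h⟩).reachable
  · have hne : b ≠ z := by rintro rfl; exact hz hab.reachable
    exact hz (hab.reachable.trans
      (φ.map_adj_iff.1 ⟨fun h => hne (φ.injective h), Or.inl h⟩).reachable)

/-- the number of vertices joined to all the others -/
noncomputable def univCount {n : ℕ} (G : SimpleGraph (Fin n)) : ℕ :=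
  {v | ∀ w, v ≠ w → G.Adj v w}.ncard

theorem univCount_iso {n : ℕ} {G G' : SimpleGraph (Fin n)} (φ : G ≃g G') :
    univCount G = univCount G' := by
  unfold univCount
  rw [← Set.ncard_image_of_injective _ φ.injective]
  congr 1
  ext v
  obtain ⟨v, rfl⟩ := φ.surjective v
  rw [φ.injective.mem_set_image]
  constructor
  · intro h w hw
    obtain ⟨w, rfl⟩ := φ.surjective w
    exact φ.map_adj_iff.2 (h w fun e => hw (by rw [e]))
  · intro h w hw
    exact φ.map_adj_iff.1 (h _ fun e => hw (φ.injective e))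

theorem univCount_csplit {n j : ℕ} (h : j + 2 ≤ n) : univCount (csplit n j) = j := by
  unfold univCount
  have : {v : Fin n | ∀ w, v ≠ w → (csplit n j).Adj v w} = Fin.val ⁻¹' Set.Iio j := by
    ext v
    constructor
    · intro hv
      by_contra hlt
      simp only [Set.mem_preimage, Set.mem_Iio, not_lt] at hlt
      by_cases hj : v.1 = j
      · have := (hv ⟨j + 1, by omega⟩ (by intro e; rw [e] at hj; simp at hj)).2
        simp at this; omega
      · have := (hv ⟨j, by omega⟩ (by intro e; rw [e] at hj; simp at hj)).2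
        simp at this; omega
    · intro hv w hw
      exact ⟨hw, Or.inl hv⟩
  rw [this, Set.ncard_preimage_of_injective_subset_range Fin.val_injective]
  · simp
  · intro i hi
    exact ⟨⟨i, by simp at hi; omega⟩, rfl⟩

theorem many_classes (hH : ¬ H.Preconnected) {a b : W} (hab : H.Adj a b) (n : ℕ) :
    n - 1 ≤ (isoClass '' members H n).ncard := by
  have h1 : (Set.Iio (n - 1)).ncard = n - 1 := by simp
  rw [← h1]
  refine Set.ncard_le_ncard_of_injOn (fun j => isoClass (csplit n j)) ?_ ?_ (Set.toFinite _)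
  · intro j _
    exact ⟨_, csplit_mem H hH hab n j, rfl⟩
  · intro j hj j' hj' he
    simp only [Set.mem_Iio] at hj hj' he
    have h2 : csplit n j' ∈ isoClass (csplit n j) := he ▸ mem_isoClass_self _
    obtain ⟨φ⟩ := h2
    have := univCount_iso φ
    rwa [univCount_csplit (by omega), univCount_csplit (by omega)] at this

theorem freq_small (hH : ¬ H.Preconnected) (p0 : Part H false false) (p1 : Part H true true)
    (p2 : Part H true false) (ε : ℝ) (hε : 0 < ε) : ∀ᶠ n in atTop,
      ({G ∈ members H n | ¬ G.Preconnected}.ncard : ℝ) ≤ ε * (isoClass '' members H n).ncard := by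
  by_cases he : ∃ a b, H.Adj a b
  · obtain ⟨a, b, hab⟩ := he
    obtain ⟨N, hN⟩ := exists_nat_gt (1 / ε)
    filter_upwards [eventually_ge_atTop (N + 1)] with n hn
    have h1 : {G ∈ members H n | ¬ G.Preconnected}.ncard ≤ 1 := by
      rw [Set.ncard_le_one_iff_subsingleton]
      intro G hG G' hG'
      rw [disc_eq_bot H hH p0 p1 p2 hG.1 hG.2, disc_eq_bot H hH p0 p1 p2 hG'.1 hG'.2]
    have h2 : N ≤ (isoClass '' members H n).ncard := le_trans (by omega) (many_classes H hH hab n)
    have h1' : ({G ∈ members H n | ¬ G.Preconnected}.ncard : ℝ) ≤ 1 := by exact_mod_cast h1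
    have h2' : (N : ℝ) ≤ (isoClass '' members H n).ncard := by exact_mod_cast h2
    rw [div_lt_iff₀ hε] at hN
    nlinarith
  · push Not at he
    filter_upwards [eventually_ge_atTop 3] with n hn
    have : {G ∈ members H n | ¬ G.Preconnected} = ∅ := by
      rw [Set.eq_empty_iff_forall_notMem]
      rintro G ⟨hG, hd⟩
      have hb := disc_eq_bot H hH p0 p1 p2 hG hd
      obtain ⟨f, -⟩ := small H hH p0 p1 p2 (⟨0, by omega⟩ : Fin n) ⟨1, by omega⟩ ⟨2, by omega⟩
        (by simp) (by simp) (by simp)
      exact hG.false ⟨f, by intro a b; simp [hb, he]⟩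
    rw [this]
    simp only [Set.ncard_empty, Nat.cast_zero]
    positivity

theorem split_sub (n : ℕ) (hn : 1 ≤ n) : members H n ⊆
    {G ∈ members H n | G.Connected} ∪ {G ∈ members H n | ¬ G.Preconnected} := by
  intro G hG
  by_cases h : G.Preconnected
  · have : Nonempty (Fin n) := ⟨⟨0, hn⟩⟩
    exact Or.inl ⟨hG, ⟨h⟩⟩
  · exact Or.inr ⟨hG, h⟩

theorem main (hH : ¬ H.Preconnected) (q : ℝ) (hq : q < 1) :
    ¬ Tendsto (pLab H) atTop (𝓝 q) ∧ ¬ Tendsto (pUnlab H) atTop (𝓝 q) := by
  have key : ∀ ε : ℝ, 0 < ε →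
      (∃ᶠ n in atTop, ({G ∈ members H n | ¬ G.Preconnected}.ncard : ℝ) ≤
        ε * (members H n).ncard) ∧
      (∃ᶠ n in atTop, ((isoClass '' {G ∈ members H n | ¬ G.Preconnected}).ncard : ℝ) ≤
        ε * (isoClass '' members H n).ncard) := by
    intro ε hε
    by_cases hp : ∃ s t, ¬ Part H s t
    · obtain ⟨s, t, hp⟩ := hp
      refine ⟨core _ _ (rec_lab H) (fun m => (low_lab H hp m).trans
        (Nat.le_mul_of_pos_left _ (Nat.factorial_pos _))) ε hε,
        core _ _ (rec_unlab H) (fun m => (low_lab H hp m).trans (lab_le_unlab _ _)) ε hε⟩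
    · push Not at hp
      have h := freq_small H hH (hp _ _) (hp _ _) (hp _ _) ε hε
      constructor
      · refine (h.mono fun n hn => hn.trans ?_).frequently
        gcongr
        exact Set.ncard_image_le (Set.toFinite _)
      · refine (h.mono fun n hn => le_trans ?_ hn).frequently
        exact_mod_cast Set.ncard_image_le (Set.toFinite _)
  constructor
  · refine not_tendsto (fun n => (members H n).ncard)
      (fun n => {G ∈ members H n | G.Connected}.ncard) _ (fun n => ?_) (fun n hn => ?_)
      (fun ε hε => (key ε hε).1) q hq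
    · exact (Set.ncard_pos (Set.toFinite _)).2 ⟨_, top_mem H hH n⟩
    · exact (Set.ncard_le_ncard (split_sub H n hn) (Set.toFinite _)).trans (Set.ncard_union_le _ _)
  · refine not_tendsto (fun n => (isoClass '' members H n).ncard)
      (fun n => (isoClass '' {G ∈ members H n | G.Connected}).ncard) _ (fun n => ?_)
      (fun n hn => ?_) (fun ε hε => (key ε hε).2) q hq
    · exact (Set.ncard_pos (Set.toFinite _)).2 ⟨_, _, top_mem H hH n, rfl⟩
    · refine le_trans ?_ (Set.ncard_union_le _ _)
      rw [← Set.image_union]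
      exact Set.ncard_le_ncard (Set.image_mono (split_sub H n hn)) (Set.toFinite _)

end Pool.Agent.H286Z.Conn
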